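import Pool.Agent.HP25.NC.F

/-!
# MP_606be1_nt: the exact logarithmic size of the set of the bases `a` for which the number of the pairs with
`|a ^ n - b ^ m| ≤ x` is not `(log x) ^ 2 / (log a log b) + O(log x)`

The question is about `a = π`, `b = e`. The starting result `DilatedNearCoincidences` says that for fixed `b > 1` and
`c > 0` the formula (`HasFormula`) for the pairs with `|c a ^ n - b ^ m| ≤ x` holds for all `a > 1` outside a set of
Hausdorff dimension zero. Here we determine the size of the exceptional set on the logarithmic scale. For a measure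
`ν` on the line let `modulus ν k` be the largest measure of an interval of length `exp (- k)`.

**Theorem.** Let `b > 1`, for instance `b = e`.

1. For every `c > 0` and every measure `ν` for which the sum of the `(k + 1) * modulus ν k` is finite, the formula
   holds for `ν`-almost all `a > 1`. For instance `modulus ν k ≤ 1 / k ^ (2 + ε)` suffices.
2. This is sharp: for every function `h` which tends to infinity, arbitrarily slowly, and every interval
   `[u, v]`, `1 < u < v` (for instance around `π`) there is a probability measure `ν` on `[u, v]` with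
   `modulus ν k ≤ h k / k ^ 2` for all large `k` such that for `ν`-almost all `a` the numbers `a`, `b` are
   multiplicatively independent, and there are infinitely many pairs with `|a ^ n - b ^ m| ≤ x` for all `x > 0`, and
   even with `|a ^ n - b ^ m| < exp (- K n)` for every `K`. So the exceptional set has logarithmic
   dimension exactly two.

Proof. 1. Borel-Cantelli: for every `n` the `a` in a compact interval with a near miss
`|c a ^ n - b ^ m| < (c a ^ n) ^ (1/2)` are in `O(n)` intervals of exponentially small length. 2. The fractions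
`m / n` in lowest terms with `4 Q ≤ n < 5 Q` contain at least `L Q ^ 2 / 8` numbers with mutual distances
`≥ 1 / (25 Q ^ 2)` in every interval of length `L`. The numbers `b ^ (m / n)` give the intervals of a Cantor set; the
measure is constructed in `Pool.Agent.HP25.NC.frostman`.
-/

set_option autoImplicit false

namespace Pool.Agent.Results.MP_606be1_nt.LogarithmicSizeBases

open MeasureTheory Filter Topology
open scoped ENNReal

/-- the pairs `(n, m)` with `|c a ^ n - b ^ m| ≤ x` -/
def pairs (a b c x : ℝ) : Set (ℕ × ℕ) := {p | |c * a ^ p.1 - b ^ p.2| ≤ x}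

/-- the number of the pairs with `|c a ^ n - b ^ m| ≤ x` is `(log x) ^ 2 / (log a log b) + O(log x)` -/
def HasFormula (a b c : ℝ) : Prop :=
  ∃ C : ℝ, ∀ x : ℝ, 2 ≤ x → (pairs a b c x).Finite ∧
    |(((pairs a b c x).ncard : ℕ) : ℝ) - Real.log x ^ 2 / (Real.log a * Real.log b)| ≤ C * Real.log x

/-- the largest measure of an interval of length `exp (- k)` -/
noncomputable def modulus (ν : Measure ℝ) (k : ℕ) : ℝ≥0∞ := ⨆ x : ℝ, ν (Set.Icc x (x + Real.exp (-(k : ℝ))))

theorem result (b : ℝ) (hb : 1 < b) :
    -- 1. almost all bases
    (∀ c : ℝ, 0 < c → ∀ ν : Measure ℝ, ∑' k : ℕ, ((k : ℝ≥0∞) + 1) * modulus ν k ≠ ∞ → ∀ᵐ a ∂ν, 1 < a → HasFormula a b c) ∧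
    -- 2. the condition is sharp
    (∀ u v : ℝ, 1 < u → u < v → ∀ h : ℕ → ℝ, Tendsto h atTop atTop →
      ∃ ν : Measure ℝ, IsProbabilityMeasure ν ∧ (∀ᶠ k : ℕ in atTop, modulus ν k ≤ ENNReal.ofReal (h k / (k : ℝ) ^ 2)) ∧
        ∀ᵐ a ∂ν, a ∈ Set.Icc u v ∧ (∀ r s : ℤ, a ^ r * b ^ s = 1 → r = 0 ∧ s = 0) ∧
          (∀ x : ℝ, 0 < x → (pairs a b 1 x).Infinite) ∧
          ∀ K : ℝ, {p : ℕ × ℕ | |a ^ p.1 - b ^ p.2| < Real.exp (-(K * p.1))}.Infinite) := by
  have hb0 : 0 < b := by linarith
  have hlb : 0 < Real.log b := Real.log_pos hb
  refine ⟨?_, ?_⟩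
  · intro c hc ν hν
    filter_upwards [Pool.Agent.HP25.NC.bases hb hc hν] with a ha ha1
    exact Pool.Agent.Results.MP_606be1_nt.DilatedNearCoincidences.asym ha1 hb hc (ha ha1)
  · intro u v hu huv h hh
    -- a function which grows slowly
    set g : ℕ → ℝ := fun k => min (h k) k with hg
    have hgt : Tendsto g atTop atTop := by
      rw [tendsto_atTop]
      intro B
      filter_upwards [hh.eventually_ge_atTop B, tendsto_natCast_atTop_atTop.eventually_ge_atTop B] with k h1 h2
      exact le_min h1 h2
    obtain ⟨ν, h1, h2, h3⟩ := Pool.Agent.HP25.NC.bad_bases hb hu huv g hgt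
    refine ⟨ν, h1, ?_, ?_⟩
    · filter_upwards [h3] with k hk
      refine Pool.Agent.HP25.NC.modulus_le fun x => (hk x).trans ?_
      exact div_le_div_of_nonneg_right (min_le_left _ _) (by positivity)
    · -- no atoms
      have hat : ∀ x, ν {x} = 0 := by
        refine Pool.Agent.HP25.NC.no_atoms (g := fun k : ℕ => 1 / (k : ℝ)) tendsto_one_div_atTop_nhds_zero_nat ?_
        filter_upwards [h3, eventually_ge_atTop 1] with k hk hk1 x
        refine (hk x).trans ?_
        have hk0 : (0 : ℝ) < k := by exact_mod_cast hk1
        calc g k / (k : ℝ) ^ 2 ≤ k / (k : ℝ) ^ 2 := div_le_div_of_nonneg_right (min_le_right _ _) (by positivity)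
          _ = 1 / (k : ℝ) := by field_simp
      have hcount : (Set.range fun r : ℚ => b ^ (r : ℝ)).Countable := Set.countable_range _
      have hnull : ν (Set.range fun r : ℚ => b ^ (r : ℝ)) = 0 := by
        rw [← Set.biUnion_of_singleton (Set.range fun r : ℚ => b ^ (r : ℝ)), measure_biUnion_null_iff hcount]
        exact fun x _ => hat x
      have hae : ∀ᵐ a ∂ν, a ∉ Set.range fun r : ℚ => b ^ (r : ℝ) := measure_eq_zero_iff_ae_notMem.1 hnull
      filter_upwards [h2, hae] with a ha hna
      have ha1 : 1 < a := hu.trans_le ha.1.1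
      have ha0 : 0 < a := by linarith
      have hla : 0 < Real.log a := Real.log_pos ha1
      obtain ⟨h4, h5⟩ := Pool.Agent.HP25.NC.inf_pairs (f := fun n m => |a ^ n - b ^ m|) ha.2
      refine ⟨ha.1, ?_, ?_, h4⟩
      · intro r s hrs
        have h6 : (r : ℝ) * Real.log a + s * Real.log b = 0 := by
          have h7 := congrArg Real.log hrs
          rwa [Real.log_mul (by positivity) (by positivity), Real.log_zpow, Real.log_zpow, Real.log_one] at h7
        have hr : r = 0 := by
          by_contra hr
          apply hna
          refine ⟨-(s : ℚ) / r, ?_⟩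
          have hr' : (r : ℝ) ≠ 0 := by exact_mod_cast hr
          simp only
          rw [Real.rpow_def_of_pos hb0]
          have h8 : Real.log b * ((-(s : ℚ) / r : ℚ) : ℝ) = Real.log a := by
            push_cast
            field_simp
            linarith
          rw [h8, Real.exp_log ha0]
        subst hr
        refine ⟨rfl, ?_⟩
        rw [Int.cast_zero, zero_mul, zero_add] at h6
        rcases mul_eq_zero.1 h6 with h7 | h7
        · exact_mod_cast h7
        · exact absurd h7 hlb.ne'
      · intro x hx
        have h6 := h5 x hx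
        simpa only [pairs, one_mul] using h6

end Pool.Agent.Results.MP_606be1_nt.LogarithmicSizeBases
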