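import Pool.Agent.HP25.NC.F

/-!
# MP_606be1_nt: the exact logarithmic size of the set of the dilations `c` for which the number of the pairs with
`|c a ^ n - b ^ m| ≤ x` is not `(log x) ^ 2 / (log a log b) + O(log x)`

The question is about `c = 1`, `a = π`, `b = e`. The starting result `DilatedNearCoincidences` says that the formula
(`HasFormula`) holds for all `c > 0` outside a set of Hausdorff dimension zero. Here we determine the size of the
exceptional set on the logarithmic scale. For a measure `ν` on the line let `modulus ν k` be the largest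
measure of an interval of length `exp (- k)`.

**Theorem.** Let `a, b > 1`.

1. If the sum of the `modulus ν k` is finite, then the formula holds for `ν`-almost all `c > 0`. For instance
   `modulus ν k ≤ 1 / k ^ (1 + ε)` suffices: `ν` may be a measure on a set of Hausdorff dimension zero.
2. This is sharp: if `log a / log b` is irrational, then for every function `h` which tends to infinity,
   arbitrarily slowly, and every interval `[u, v]` there is a probability measure `ν` on `[u, v]` with
   `modulus ν k ≤ h k / k` for all large `k` such that for `ν`-almost all `c` the formula is false, since there are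
   infinitely many pairs with `|c a ^ n - b ^ m| ≤ x` for all `x > 0`, and even with
   `|c a ^ n - b ^ m| < exp (- K n)` for every `K`. So the exceptional set has logarithmic dimension
   exactly one.
3. If `log a / log b` is rational, then the formula holds for `c > 0` if and only if none of the numbers
   `c a ^ n` is equal to one of the numbers `b ^ m`; the exceptional set is countable.

For `a = π`, `b = e` it is not known which of the cases 2, 3 occurs; part 1 holds in any case.

Proof. 1. Borel-Cantelli: for every `n` the `c` in a compact interval with a near miss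
`|c a ^ n - b ^ m| < (c a ^ n) ^ (1/2)` are in a bounded number of intervals of length
`O(a ^ (- n / 2))`. 2. If `Q` is the denominator of a convergent of `θ = log a / log b`, the numbers `m - n θ`,
`Q ≤ n < 2 Q`, contain about `L Q` numbers with mutual distances `≥ 1 / Q` in every interval of length `L`. They
give the intervals of a Cantor set; the measure is constructed in `Pool.Agent.HP25.NC.frostman`.
-/

set_option autoImplicit false

namespace Pool.Agent.Results.MP_606be1_nt.LogarithmicSizeDilations

open MeasureTheory Filter Topology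
open scoped ENNReal

/-- the pairs `(n, m)` with `|c a ^ n - b ^ m| ≤ x` -/
def pairs (a b c x : ℝ) : Set (ℕ × ℕ) := {p | |c * a ^ p.1 - b ^ p.2| ≤ x}

/-- the number of the pairs with `|c a ^ n - b ^ m| ≤ x` is `(log x) ^ 2 / (log a log b) + O(log x)` -/
def HasFormula (a b c : ℝ) : Prop :=
  ∃ C : ℝ, ∀ x : ℝ, 2 ≤ x → (pairs a b c x).Finite ∧
    |(((pairs a b c x).ncard : ℕ) : ℝ) - Real.log x ^ 2 / (Real.log a * Real.log b)| ≤ C * Real.log x

/-- the largest measure of an interval of length `exp (- k)` -/
noncomputable def modulus (ν : Measure ℝ) (k : ℕ) : ℝ≥0∞ := ⨆ x : ℝ, ν (Set.Icc x (x + Real.exp (-(k : ℝ))))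

theorem result (a b : ℝ) (ha : 1 < a) (hb : 1 < b) :
    -- 1. almost all dilations
    (∀ ν : Measure ℝ, ∑' k : ℕ, modulus ν k ≠ ∞ → ∀ᵐ c ∂ν, 0 < c → HasFormula a b c) ∧
    -- 2. the condition is sharp
    (Irrational (Real.log a / Real.log b) → ∀ u v : ℝ, 0 < u → u < v → ∀ h : ℕ → ℝ, Tendsto h atTop atTop →
      ∃ ν : Measure ℝ, IsProbabilityMeasure ν ∧ (∀ᶠ k : ℕ in atTop, modulus ν k ≤ ENNReal.ofReal (h k / k)) ∧
        ∀ᵐ c ∂ν, c ∈ Set.Icc u v ∧ (∀ x : ℝ, 0 < x → (pairs a b c x).Infinite) ∧
          ∀ K : ℝ, {p : ℕ × ℕ | |c * a ^ p.1 - b ^ p.2| < Real.exp (-(K * p.1))}.Infinite) ∧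
    -- 3. multiplicatively dependent bases
    (¬ Irrational (Real.log a / Real.log b) → ∀ c : ℝ, 0 < c → (HasFormula a b c ↔ ∀ n m : ℕ, c * a ^ n ≠ b ^ m)) := by
  refine ⟨?_, ?_, ?_⟩
  · intro ν hν
    filter_upwards [Pool.Agent.HP25.NC.dilations ha hb hν] with c hc hc0
    exact Pool.Agent.Results.MP_606be1_nt.DilatedNearCoincidences.asym ha hb hc0 (hc hc0)
  · intro hirr u v hu huv h hh
    obtain ⟨ν, h1, h2, h3⟩ := Pool.Agent.HP25.NC.bad_dilations ha hb hirr hu huv h hh
    refine ⟨ν, h1, ?_, ?_⟩
    · filter_upwards [h3] with k hk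
      refine Pool.Agent.HP25.NC.modulus_le fun x => ?_
      have := hk x
      rwa [pow_one] at this
    · filter_upwards [h2] with c hc
      obtain ⟨h4, h5⟩ := Pool.Agent.HP25.NC.inf_pairs (f := fun n m => |c * a ^ n - b ^ m|) hc.2
      exact ⟨hc.1, h5, h4⟩
  · intro hdep c hc
    constructor
    · rintro ⟨C, hC⟩ n m hnm
      exact Pool.Agent.HP25.NC.dependent_inf ha hb hdep hnm (by norm_num) (hC 2 le_rfl).1
    · intro hne
      exact Pool.Agent.Results.MP_606be1_nt.DilatedNearCoincidences.asym ha hb hc
        (Pool.Agent.HP25.NC.dependent_fin ha hb hc hdep hne)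

end Pool.Agent.Results.MP_606be1_nt.LogarithmicSizeDilations
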